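import Mathlib

/-!
# The second derived set of every subset of a T0-space is closed

This answers Lelek's question in the negative: there is no T0-space with a subset whose
second derived set is not closed.
-/

namespace Pool.Agent.Results.MP_091ced_gt.SecondDerivedSetClosed

/-- The derived set of `A`: all points `x` in the closure of `A \ {x}`. -/
def der {X : Type*} [TopologicalSpace X] (A : Set X) : Set X :=
  {x | x ∈ closure (A \ {x})}

theorem result {X : Type*} [TopologicalSpace X] [T0Space X] (A : Set X) :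
    IsClosed (der (der A)) := by
  classical
  set B := der A with hB
  rw [← closure_subset_iff_isClosed]
  intro x hx
  by_contra hxn
  -- an open set around `x` missing `B \ {x}`
  have h1 : ∃ O : Set X, IsOpen O ∧ x ∈ O ∧ O ∩ (B \ {x}) = ∅ := by
    have : x ∉ closure (B \ {x}) := hxn
    rw [mem_closure_iff] at this
    push Not at this
    exact this
  obtain ⟨O, hO, hxO, hOB⟩ := h1
  have hOB' : ∀ z ∈ O, z ∈ B → z = x := by
    intro z hz hzB
    by_contra hne
    have : z ∈ O ∩ (B \ {x}) := ⟨hz, hzB, hne⟩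
    rw [hOB] at this
    exact this
  obtain ⟨y, hyO, hyB⟩ := mem_closure_iff.1 hx O hO hxO
  have hyx : y ≠ x := by
    rintro rfl
    exact hxn hyB
  -- every neighbourhood of `y` contains `x`, and `x` is in `B`
  have h2 : ∀ V : Set X, IsOpen V → y ∈ V → x ∈ V ∧ x ∈ B := by
    intro V hV hyV
    obtain ⟨z, hz, hzB, _⟩ := mem_closure_iff.1 hyB (V ∩ O) (hV.inter hO) ⟨hyV, hyO⟩
    have hzx := hOB' z hz.2 hzB
    subst hzx
    exact ⟨hz.1, hzB⟩
  have hxB : x ∈ B := (h2 Set.univ isOpen_univ trivial).2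
  -- the `T0` axiom gives an open set around `x` missing `y`
  obtain ⟨U, hU, hxor⟩ := exists_isOpen_xor_mem (X := X) hyx
  have hU' : x ∈ U ∧ y ∉ U := by
    rcases hxor with ⟨h, h'⟩ | ⟨h, h'⟩
    · exact absurd (h2 U hU h).1 h'
    · exact ⟨h, h'⟩
  have hyB' : y ∈ B := by
    show y ∈ closure (A \ {y})
    rw [mem_closure_iff]
    intro V hV hyV
    have hxV := (h2 V hV hyV).1
    have hxA : x ∈ closure (A \ {x}) := hxB
    obtain ⟨a, ha, haA, _⟩ := mem_closure_iff.1 hxA (V ∩ U) (hV.inter hU) ⟨hxV, hU'.1⟩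
    refine ⟨a, ha.1, haA, ?_⟩
    rintro rfl
    exact hU'.2 ha.2
  exact hyx (hOB' y hyO hyB')

end Pool.Agent.Results.MP_091ced_gt.SecondDerivedSetClosed
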